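import Pool.Agent.Q83.BL.Fin
import Pool.Agent.Q137.BL.RIE
import Pool.Agent.Q137.BL.INT
import Pool.Agent.Q137.BL.MOD
import Pool.Agent.Q137.BL.LIP
import Pool.Agent.Q137.BL.SER
import Pool.Agent.Q154.BL.DIF
import Pool.Agent.Q154.BL.BAD
import Pool.Agent.Q154.BL.PHI
import Pool.Agent.Q154.BL.UNI
import Pool.Agent.Q153.BL.Tf
import Pool.Agent.Q223.BL.ARG
import Pool.Agent.Q241.BL.Fou
import Pool.Agent.Q241.BL.Tor

/-!
# The nonsymmetric Balian-Low theorem for symplectic lattices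

`X l` is the Euclidean space of dimension `l`, `shift m n g` the function
`exp (2 π i n · x) g (x - m)`, `gabor M g` the Gabor system along the lattice `M ℤ^(2l)`, and
`mom k p f` is the integral of `|x_k|^p |f|^2`. The theorem answers the question positively: for every
symplectic matrix `M` and every window `g` whose Gabor system is a Riesz basis, both (i) and (ii) hold
for every coordinate `k`.
-/

open MeasureTheory Q83.BL
open scoped ENNReal FourierTransform

namespace Pool.Agent.Results.MP_bb0b0f_an.Symplectic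

lemma mom_congr {l : ℕ} (k : Fin l) (p : ℝ) {f h : X l → ℂ} (hfh : f =ᵐ[volume] h) :
    mom k p f = mom k p h := by
  refine lintegral_congr_ae ?_
  filter_upwards [hfh] with x hx
  rw [hx]

lemma HasCpt.congr {l : ℕ} {f h : X l → ℂ} (hfh : f =ᵐ[volume] h) (hf : HasCpt f) :
    HasCpt h := by
  obtain ⟨R, hR⟩ := hf
  refine ⟨R, ?_⟩
  filter_upwards [hfh, hR] with x hx h1 h2
  rw [← hx]
  exact h1 h2

theorem result (l : ℕ) (M : Mat l) (hM : IsSymplectic M) (g : X l → ℂ) (hg : MemLp g 2 volume)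
    (hR : IsRieszFam volume (gabor M g)) (k : Fin l) :
    (∀ p q : ℝ, 1 < p → 1 < q → 1 / p + 1 / q = 1 →
      mom k p g = ⊤ ∨ mom k q (FT g hg) = ⊤) ∧
    (HasCpt g → mom k 1 (FT g hg) = ⊤) ∧
    (HasCpt (FT g hg) → mom k 1 g = ⊤) := by
  obtain ⟨hh, hR⟩ := hR
  have hcl : ⇑(hg.toLp g) =ᵐ[volume] g := hg.coeFn_toLp
  have e1 : (fun n : Fin l ⊕ Fin l → ℤ => (hh n).toLp (gabor M g n)) =
      fun n => tf (pos M n) (freq M n) (hg.toLp g) := by
    funext n
    refine MemLp.toLp_congr _ _ ?_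
    have h1 : (fun x => (hg.toLp g) (x - pos M n)) =ᵐ[volume] fun x => g (x - pos M n) :=
      (measurePreserving_sub_right volume (pos M n)).quasiMeasurePreserving.ae_eq_comp hcl
    filter_upwards [h1] with x hx
    simp only [gabor, shift]
    rw [hx]
  rw [e1] at hR
  have h := main Pool.Agent.Q154.BL.t_DIF (Pool.Agent.Q154.BL.t_BAD Pool.Agent.Q154.BL.t_DIF) t_ARG
    Pool.Agent.Q137.BL.t_RIE Pool.Agent.Q137.BL.t_INT Pool.Agent.Q153.BL.t_TF
    Pool.Agent.Q241.BL.t_FOU Pool.Agent.Q137.BL.t_MOD Pool.Agent.Q137.BL.t_SER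
    Pool.Agent.Q137.BL.t_LIP Pool.Agent.Q154.BL.t_PHI Pool.Agent.Q241.BL.t_TOR
    Pool.Agent.Q154.BL.t_UNI M hM (hg.toLp g) hR k
  obtain ⟨h1, h2, h3⟩ := h
  refine ⟨fun p q hp hq hpq => ?_, fun hc => ?_, fun hc => ?_⟩
  · rw [← mom_congr k p hcl]
    exact h1 p q hp hq hpq
  · have := h2 (HasCpt.congr hcl.symm hc)
    simp only [mom, Real.rpow_one]
    exact this
  · have := h3 hc
    rw [← mom_congr k 1 hcl]
    simp only [mom, Real.rpow_one]
    exact this

end Pool.Agent.Results.MP_bb0b0f_an.Symplectic
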